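import Pool.Agent.W93.CU2

/-! # The median inequality for the sum-of-digits measures `P_t` -/

namespace Pool.Agent.Results.MP_23af5d_nt.MedianInequality

open W93.CU

/-- `P` is the family of measures of the problem: `P_1 = δ_0`, `P_{2n} = P_n` and
`P_{2n+1}(d) = P_n(d-1)/2 + P_{n+1}(d+1)/2` for `n ≥ 1`. -/
structure IsP (P : ℕ → ℤ → ℝ) : Prop where
  one : ∀ d, P 1 d = if d = 0 then 1 else 0
  even : ∀ n, 1 ≤ n → ∀ d, P (2 * n) d = P n d
  odd : ∀ n, 1 ≤ n → ∀ d, P (2 * n + 1) d = P n (d - 1) / 2 + P (n + 1) (d + 1) / 2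

/-- an explicit family -/
noncomputable def P : ℕ → ℤ → ℝ
  | 0 => fun _ => 0
  | 1 => fun d => if d = 0 then 1 else 0
  | n + 2 => if (n + 2) % 2 = 0 then P ((n + 2) / 2)
      else if h : (n + 2) / 2 + 1 < n + 2 then
        fun d => P ((n + 2) / 2) (d - 1) / 2 + P ((n + 2) / 2 + 1) (d + 1) / 2
      else fun _ => 0
termination_by n => n
decreasing_by all_goals omega

lemma isP : IsP P := by
  refine ⟨fun d => by rw [P], fun n hn d => ?_, fun n hn d => ?_⟩
  · obtain ⟨m, rfl⟩ : ∃ m, n = m + 1 := ⟨n - 1, by omega⟩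
    rw [show 2 * (m + 1) = 2 * m + 2 by ring, P, if_pos (by omega),
      show (2 * m + 2) / 2 = m + 1 by omega]
  · obtain ⟨m, rfl⟩ : ∃ m, n = m + 1 := ⟨n - 1, by omega⟩
    rw [show 2 * (m + 1) + 1 = (2 * m + 1) + 2 by ring, P, if_neg (by omega),
      dif_pos (by omega), show (2 * m + 1 + 2) / 2 = m + 1 by omega]

/-- the number with binary digits `w` (least significant first) below a leading one -/
def val : List Bool → ℕ
  | [] => 1
  | b :: w => 2 * val w + (if b then 1 else 0)

lemma val_pos (w : List Bool) : 1 ≤ val w := by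
  induction w with
  | nil => exact le_rfl
  | cons b w ih => unfold val; omega

lemma exists_val (t : ℕ) (ht : 1 ≤ t) : ∃ w, val w = t := by
  induction t using Nat.strong_induction_on with
  | _ t ih =>
    by_cases h1 : t = 1
    · exact ⟨[], h1.symm⟩
    · obtain ⟨w, hw⟩ := ih (t / 2) (by omega) (by omega)
      by_cases h2 : t % 2 = 1
      · exact ⟨true :: w, by unfold val; rw [hw]; simp; omega⟩
      · exact ⟨false :: w, by unfold val; rw [hw]; simp; omega⟩

lemma val_true (w : List Bool) : val (true :: w) = 2 * val w + 1 := by simp [val]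
lemma val_false (w : List Bool) : val (false :: w) = 2 * val w := by simp [val]

/-- summability, tails, nonnegativity, total mass -/
structure Good (f : ℤ → ℝ) (T : ℤ → ℝ) : Prop where
  sm : ∀ k : ℤ, HasSum (fun j : ℕ => f (k + j)) (T k)
  nn : ∀ d, 0 ≤ f d
  tot : HasSum f 1

lemma Good.mix {f g T U : ℤ → ℝ} (hf : Good f T) (hg : Good g U) :
    Good (fun d => f (d-1) / 2 + g (d+1) / 2) (fun k => T (k-1) / 2 + U (k+1) / 2) := by
  refine ⟨fun k => ?_, fun d => ?_, ?_⟩
  · have a := (hf.sm (k-1)).div_const 2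
    have b := (hg.sm (k+1)).div_const 2
    have c := a.add b
    have e : (fun j : ℕ => f (k + j - 1) / 2 + g (k + j + 1) / 2) =
        fun j : ℕ => f (k - 1 + j) / 2 + g (k + 1 + j) / 2 := by
      funext j
      rw [show k + (j:ℤ) - 1 = k - 1 + j by ring, show k + (j:ℤ) + 1 = k + 1 + j by ring]
    show HasSum (fun j : ℕ => f (k + j - 1) / 2 + g (k + j + 1) / 2) _
    rw [e]
    exact c
  · have := hf.nn (d-1); have := hg.nn (d+1); positivity
  · have a : HasSum (fun d : ℤ => f (d - 1)) 1 := (Equiv.subRight (1:ℤ)).hasSum_iff.mpr hf.tot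
    have b : HasSum (fun d : ℤ => g (d + 1)) 1 := (Equiv.addRight (1:ℤ)).hasSum_iff.mpr hg.tot
    have c := (a.div_const 2).add (b.div_const 2)
    have e : (1:ℝ) / 2 + 1 / 2 = 1 := by norm_num
    rw [e] at c
    exact c

lemma Good.delta : Good (fun d : ℤ => if d = 0 then (1:ℝ) else 0) one0 := by
  refine ⟨fun k => ?_, fun d => by positivity, ?_⟩
  · by_cases h : k ≤ 0
    · have e : (fun j : ℕ => if k + (j:ℤ) = 0 then (1:ℝ) else 0) =
          fun j : ℕ => if j = (-k).toNat then 1 else 0 := by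
        funext j
        by_cases hj : j = (-k).toNat
        · rw [if_pos hj, if_pos (by omega)]
        · rw [if_neg hj, if_neg (by omega)]
      show HasSum (fun j : ℕ => if k + (j:ℤ) = 0 then (1:ℝ) else 0) _
      rw [e, one0, if_pos h]
      exact hasSum_ite_eq _ _
    · have e : (fun j : ℕ => if k + (j:ℤ) = 0 then (1:ℝ) else 0) = fun _ : ℕ => (0:ℝ) := by
        funext j
        rw [if_neg (by omega)]
      show HasSum (fun j : ℕ => if k + (j:ℤ) = 0 then (1:ℝ) else 0) _
      rw [e, one0, if_neg h]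
      exact hasSum_zero
  · exact hasSum_ite_eq (0:ℤ) (1:ℝ)

lemma good_all {P : ℕ → ℤ → ℝ} (hP : IsP P) (w : List Bool) :
    Good (P (val w)) (tl one0 one0 w).1 ∧ Good (P (val w + 1)) (tl one0 one0 w).2 := by
  induction w with
  | nil =>
    have e1 : P (val []) = fun d => if d = 0 then (1:ℝ) else 0 := funext fun d => hP.one d
    have e2 : P (val [] + 1) = fun d => if d = 0 then (1:ℝ) else 0 :=
      funext fun d => by rw [show val [] + 1 = 2 * 1 from rfl, hP.even 1 le_rfl, hP.one]
    rw [e1, e2]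
    exact ⟨Good.delta, Good.delta⟩
  | cons b w ih =>
    have hv := val_pos w
    have mid : P (2 * val w + 1) = fun d => P (val w) (d-1) / 2 + P (val w + 1) (d+1) / 2 :=
      funext fun d => hP.odd _ hv d
    cases b with
    | true =>
      refine ⟨?_, ?_⟩
      · rw [val_true, mid]
        exact ih.1.mix ih.2
      · have e : P (val (true :: w) + 1) = P (val w + 1) := by
          funext d
          rw [val_true, show 2 * val w + 1 + 1 = 2 * (val w + 1) by ring]
          exact hP.even _ (by omega) d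
        rw [e]
        exact ih.2
    | false =>
      refine ⟨?_, ?_⟩
      · have e : P (val (false :: w)) = P (val w) := by
          funext d
          rw [val_false]
          exact hP.even _ hv d
        rw [e]
        exact ih.1
      · rw [val_false, mid]
        exact ih.1.mix ih.2

lemma median_tl (w : List Bool) :
    1/2 ≤ (tl one0 one0 w).1 0 ∧ (tl one0 one0 w).1 1 ≤ 1/2 := by
  induction w with
  | nil => exact ⟨by norm_num [tl, one0], by norm_num [tl, one0]⟩
  | cons b w ih =>
    cases b with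
    | true => exact ⟨median_odd w, median_odd_le w⟩
    | false => exact ih

/-- **The median inequality.** There is a family `(P_t)` satisfying the recursion of the problem,
and for every such family and every `t ≥ 1` the function `P_t` is a probability measure on `ℤ` with
`P_t({0,1,2,...}) ≥ 1/2` and `P_t({0,-1,-2,...}) ≥ 1/2`. -/
theorem result :
    (∃ P : ℕ → ℤ → ℝ, IsP P) ∧
    ∀ P : ℕ → ℤ → ℝ, IsP P → ∀ t : ℕ, 1 ≤ t →
      (∀ d, 0 ≤ P t d) ∧ HasSum (P t) 1 ∧
      1 / 2 ≤ ∑' d : ℕ, P t (d : ℤ) ∧ 1 / 2 ≤ ∑' d : ℕ, P t (-(d : ℤ)) := by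
  refine ⟨⟨P, isP⟩, fun P hP t ht => ?_⟩
  obtain ⟨w, rfl⟩ := exists_val t ht
  have g := (good_all hP w).1
  have m := median_tl w
  have s0 := g.sm 0
  have e0 : (fun j : ℕ => P (val w) (0 + j)) = fun j : ℕ => P (val w) (j:ℤ) := by
    funext j; rw [zero_add]
  rw [e0] at s0
  have s1 := g.sm 1
  refine ⟨g.nn, g.tot, ?_, ?_⟩
  · rw [s0.tsum_eq]; exact m.1
  · -- split the total mass
    have hsum : Summable (fun j : ℕ => P (val w) (-(j:ℤ))) :=
      g.tot.summable.comp_injective (i := fun j : ℕ => -(j:ℤ)) (fun a b h => by simpa using h)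
    have h1 : HasSum (fun j : ℕ => P (val w) (-(-((j:ℤ) + 1)))) ((tl one0 one0 w).1 1) := by
      have e1 : (fun j : ℕ => P (val w) (-(-((j:ℤ) + 1)))) = fun j : ℕ => P (val w) (1 + (j:ℤ)) := by
        funext j; rw [neg_neg, add_comm]
      rw [e1]; exact s1
    have h := HasSum.of_nat_of_neg_add_one (f := fun d : ℤ => P (val w) (-d)) hsum.hasSum h1
    have h2 : HasSum (fun d : ℤ => P (val w) (-d)) 1 := (Equiv.neg ℤ).hasSum_iff.mpr g.tot
    have := h.unique h2
    linarith [m.2]

end Pool.Agent.Results.MP_23af5d_nt.MedianInequality
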